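import Pool.Agent.H74.AffFaces

set_option autoImplicit false

/-!
# Conformal type of affine spheres over convex cones in `ℝ³`: the conjectured equivalence fails

The definitions are in `Pool.Agent.H74.AffDefs`.

Idea of the proof. If `f` is a complete hyperbolic affine sphere asymptotic to `∂K`, its conormal
map is a complete hyperbolic affine sphere asymptotic to the boundary of the dual cone `K*`, with
the same affine metric. So condition (i) for `K*` implies condition (i) for `K`. Condition (ii) is
not invariant under duality: let `N (a, b) = |a| + |b| + ∑ cₙ |a - rₙ b|`, where `rₙ` is a dense
sequence and `cₙ > 0` decreases fast. The norm `N` is strictly convex, so the cone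
`K = {N (x, y) ≤ z}` has no two-dimensional face at all, but its unit ball has a dense set of
corners, so the two-dimensional faces of `K*` are dense in `∂K*`. If (i) and (ii) were equivalent
for all cones, then (ii) for `K*` would give (i) for `K*`, hence (i) for `K`, hence (ii) for `K`.
Neither the existence of affine spheres nor the uniformization theorem is used.
-/

namespace Pool.Agent.Results.MP_63dd76_gt.DualCones

open Pool.Agent.H74.Aff

/-- **Q1 is false.** There is a regular convex cone `K` in `ℝ³` for which exactly one of the
following holds: (i) each complete hyperbolic affine sphere asymptotic to `∂K` is conformally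
equivalent to `ℂ`; (ii) every point of `∂K` is a limit of points lying in two-dimensional faces
of `K`. -/
theorem result : ∃ K : Set V, IsRegularCone K ∧ ¬ (TypePlane K ↔ FacesDense K) := by
  by_contra hcon
  push Not at hcon
  have h1 : TypePlane (dualCone K1) := (hcon _ K2_regular).2 facesDense_K2
  have h2 : TypePlane K1 := TypePlane.of_dual K1_regular h1
  exact not_facesDense_K1 ((hcon _ K1_regular).1 h2)

end Pool.Agent.Results.MP_63dd76_gt.DualCones
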